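import Mathlib

/-!
Map folding: combinatorial core.

Squares of the sheet are pairs `(c, r)` (column, row), 0-based. A crease is `(k, c, r)`: for
`k = false` the crease between `(c, r)` and `(c + 1, r)`, for `k = true` the crease between `(c, r)`
and `(c, r + 1)`. A pattern says for every crease which of its two squares is the lower one. A
folding is an injective position function (the stack of the folded sheet from bottom to top) which
respects the pattern and in which no two creases on the same side of the folded unit square cross.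
-/

set_option autoImplicit false

namespace Pool.Agent.Helper69.MF

abbrev Sq := ℕ × ℕ

structure Cr where
  k : Bool
  c : ℕ
  r : ℕ
deriving DecidableEq

namespace Cr

def fst (x : Cr) : Sq := (x.c, x.r)

def snd (x : Cr) : Sq := if x.k then (x.c, x.r + 1) else (x.c + 1, x.r)

/-- Two creases lie on the same side of the folded square iff they have the same kind and the same
parity. -/
def page (x : Cr) : Bool × ℕ := (x.k, (if x.k then x.r else x.c) % 2)

end Cr

/-- `H c r`: the square `(c, r)` is below `(c + 1, r)`. `V c r`: `(c, r)` is below `(c, r + 1)`. -/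
structure Pat where
  H : ℕ → ℕ → Bool
  V : ℕ → ℕ → Bool

namespace Pat

def dir (A : Pat) (x : Cr) : Bool := if x.k then A.V x.c x.r else A.H x.c x.r

/-- The lower square of a crease. -/
def lo (A : Pat) (x : Cr) : Sq := if A.dir x then x.fst else x.snd

/-- The upper square of a crease. -/
def hi (A : Pat) (x : Cr) : Sq := if A.dir x then x.snd else x.fst

end Pat

/-- The crease `x` lies in the region `R`. -/
def Cr.In (x : Cr) (R : Set Sq) : Prop := x.fst ∈ R ∧ x.snd ∈ R

structure Fold (A : Pat) (R : Set Sq) (pos : Sq → ℕ) : Prop where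
  inj : ∀ a ∈ R, ∀ b ∈ R, pos a = pos b → a = b
  dir : ∀ x : Cr, x.In R → pos (A.lo x) < pos (A.hi x)
  nc : ∀ x y : Cr, x.In R → y.In R → x.page = y.page →
    ¬ (pos (A.lo x) < pos (A.lo y) ∧ pos (A.lo y) < pos (A.hi x) ∧ pos (A.hi x) < pos (A.hi y))

def rect (n m : ℕ) : Set Sq := {a | a.1 < n ∧ a.2 < m}

def Foldable (A : Pat) (n m : ℕ) : Prop := ∃ pos, Fold A (rect n m) pos

/-- Pattern with column pattern `sg`, row pattern `rh` and flipped squares `fl`. -/
def mkPat (sg rh : ℕ → Bool) (fl : ℕ → ℕ → Bool) : Pat where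
  H c r := xor (xor (sg c) (r % 2 == 1)) (xor (fl c r) (fl (c + 1) r))
  V c r := xor (rh r) (xor (fl c r) (fl c (r + 1)))

theorem Fold.mono {A : Pat} {R S : Set Sq} {pos : Sq → ℕ} (h : Fold A R pos) (hs : S ⊆ R) :
    Fold A S pos where
  inj := fun a ha b hb => h.inj a (hs ha) b (hs hb)
  dir := fun x hx => h.dir x ⟨hs hx.1, hs hx.2⟩
  nc := fun x y hx hy => h.nc x y ⟨hs hx.1, hs hx.2⟩ ⟨hs hy.1, hs hy.2⟩

theorem Cr.fst_ne_snd (x : Cr) : x.fst ≠ x.snd := by
  unfold Cr.fst Cr.snd
  split_ifs <;> simp

/-- Different creases on the same page have no square in common. -/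
theorem Cr.disj {x y : Cr} (h : x.page = y.page) (hne : x ≠ y) :
    x.fst ≠ y.fst ∧ x.fst ≠ y.snd ∧ x.snd ≠ y.fst ∧ x.snd ≠ y.snd := by
  obtain ⟨k, c, r⟩ := x
  obtain ⟨k', c', r'⟩ := y
  simp only [Cr.page, Prod.mk.injEq] at h
  obtain ⟨rfl, h⟩ := h
  simp only [ne_eq, Cr.mk.injEq, true_and, not_and] at hne
  cases k
  · simp only [Bool.false_eq_true, if_false] at h
    simp only [Cr.fst, Cr.snd, Bool.false_eq_true, if_false, ne_eq, Prod.mk.injEq, not_and]
    refine ⟨fun h1 h2 => hne h1 h2, fun h1 => ?_, fun h1 => ?_, fun h1 h2 => ?_⟩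
    · omega
    · omega
    · exact hne (by omega) h2
  · simp only [if_true] at h
    simp only [Cr.fst, Cr.snd, if_true, ne_eq, Prod.mk.injEq, not_and]
    refine ⟨fun h1 h2 => hne h1 h2, fun h1 => ?_, fun h1 => ?_, fun h1 h2 => ?_⟩
    · omega
    · omega
    · exact hne h1 (by omega)

/-- Noncrossing as a parity condition. -/
theorem Fold.even {A : Pat} {R : Set Sq} {pos : Sq → ℕ} (h : Fold A R pos) {x y : Cr}
    (hx : x.In R) (hy : y.In R) (hp : x.page = y.page) (hne : x ≠ y) :
    xor (xor (decide (pos x.fst < pos y.fst)) (decide (pos x.snd < pos y.fst)))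
      (xor (decide (pos x.fst < pos y.snd)) (decide (pos x.snd < pos y.snd))) = false := by
  obtain ⟨d1, d2, d3, d4⟩ := Cr.disj hp hne
  have e1 : pos x.fst ≠ pos y.fst := fun e => d1 (h.inj _ hx.1 _ hy.1 e)
  have e2 : pos x.fst ≠ pos y.snd := fun e => d2 (h.inj _ hx.1 _ hy.2 e)
  have e3 : pos x.snd ≠ pos y.fst := fun e => d3 (h.inj _ hx.2 _ hy.1 e)
  have e4 : pos x.snd ≠ pos y.snd := fun e => d4 (h.inj _ hx.2 _ hy.2 e)
  have n1 := h.nc x y hx hy hp
  have n2 := h.nc y x hy hx hp.symm
  have p1 := h.dir x hx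
  have p2 := h.dir y hy
  have key : ∀ a b c d : ℕ, a ≠ c → a ≠ d → b ≠ c → b ≠ d → a < b → c < d →
      ¬ (a < c ∧ c < b ∧ b < d) → ¬ (c < a ∧ a < d ∧ d < b) →
      xor (xor (decide (a < c)) (decide (b < c))) (xor (decide (a < d)) (decide (b < d))) = false := by
    intro a b c d h1 h2 h3 h4 h5 h6 h7 h8
    by_cases q1 : a < c <;> by_cases q2 : b < c <;> by_cases q3 : a < d <;> by_cases q4 : b < d <;>
      simp [q1, q2, q3, q4] <;> omega
  unfold Pat.lo Pat.hi at n1 n2 p1 p2
  cases hdx : A.dir x <;> cases hdy : A.dir y <;>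
    simp only [hdx, hdy, Bool.false_eq_true, if_false, if_true] at n1 n2 p1 p2
  · have := key _ _ _ _ e4 e3 e2 e1 p1 p2 n1 n2
    revert this
    generalize decide (pos x.fst < pos y.fst) = a1
    generalize decide (pos x.snd < pos y.fst) = a2
    generalize decide (pos x.fst < pos y.snd) = a3
    generalize decide (pos x.snd < pos y.snd) = a4
    cases a1 <;> cases a2 <;> cases a3 <;> cases a4 <;> decide
  · have := key _ _ _ _ e3 e4 e1 e2 p1 p2 n1 n2
    revert this
    generalize decide (pos x.fst < pos y.fst) = a1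
    generalize decide (pos x.snd < pos y.fst) = a2
    generalize decide (pos x.fst < pos y.snd) = a3
    generalize decide (pos x.snd < pos y.snd) = a4
    cases a1 <;> cases a2 <;> cases a3 <;> cases a4 <;> decide
  · have := key _ _ _ _ e2 e1 e4 e3 p1 p2 n1 n2
    revert this
    generalize decide (pos x.fst < pos y.fst) = a1
    generalize decide (pos x.snd < pos y.fst) = a2
    generalize decide (pos x.fst < pos y.snd) = a3
    generalize decide (pos x.snd < pos y.snd) = a4
    cases a1 <;> cases a2 <;> cases a3 <;> cases a4 <;> decide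
  · exact key _ _ _ _ e1 e2 e3 e4 p1 p2 n1 n2

end Pool.Agent.Helper69.MF
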