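import Pool.Agent.Helper69.MF.Core

/-!
Map folding: the explicit sheet.

A system has two families of Boolean variables `X v`, `Y v` (`v < N`) and `M` constraints; the
constraint `g` forbids `X (lv g 0) = ls g 0 ∧ Y (lv g 1) = ls g 1 ∧ X (lv g 2) = ls g 2`.

Columns: blocks of width 12; block `v` is the knot of `Y v`, block `N + v` the knot of `X v`.
The knot squares are the columns `12 b + 3, ..., 12 b + 9`. The bit of an `X` knot compares the
columns `12 b + 4` and `12 b + 6`, the bit of a `Y` knot the columns `12 b + 6` and `12 b + 8`.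

Rows: groups of height 52; the walls of a group are the row creases `4, 13, 22, 30, 39, 47` (the
crease `w` lies between the rows `w` and `w + 1`). The first, second and fourth wall carry one test
gadget: first wall: the gadget `C` (value `ls g 0`) in the block `N + lv g 0`; second wall: the
mirrored gadget `C` (value `ls g 1`) in the block `lv g 1`; fourth wall: the gadget `B` (value
`ls g 2`) in the block `N + lv g 2`. A gadget at the wall `w` flips squares in the rows
`w - 1, ..., w + 2` and in the columns `12 b + 2, ..., 12 b + 10` of its block.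
-/

set_option autoImplicit false

namespace Pool.Agent.Helper69.MF

structure Sys where
  N : ℕ
  M : ℕ
  lv : ℕ → ℕ → ℕ
  ls : ℕ → ℕ → Bool

namespace Sys

variable (I : Sys)

def Wf : Prop := ∀ g < I.M, ∀ t < 3, I.lv g t < I.N

def Ok (X Y : ℕ → Bool) (g : ℕ) : Prop :=
  ¬ (X (I.lv g 0) = I.ls g 0 ∧ Y (I.lv g 1) = I.ls g 1 ∧ X (I.lv g 2) = I.ls g 2)

def Sat : Prop := ∃ X Y : ℕ → Bool, ∀ g < I.M, I.Ok X Y g

end Sys

/-- Flipped squares of the gadget `C`; code `100 * column + row`, columns `0 .. 8` of the gadget, rows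
`0 .. 3` for the sheet rows `w - 1 .. w + 2`. With the value `s`, the knot bit `s` forces the wall
state `C` on the left side. -/
def gadC (s : Bool) : List ℕ :=
  if s then [3, 100, 102, 103, 200, 203, 300, 302, 303, 400, 403, 500, 502, 503, 600, 603, 702, 703,
    800, 803]
  else [3, 100, 102, 103, 200, 203, 300, 302, 303, 403, 503, 600, 602, 603, 702, 703, 800, 803]

/-- Flipped squares of the gadget `B`. -/
def gadB (s : Bool) : List ℕ :=
  if s then [0, 100, 101, 103, 200, 203, 300, 301, 303, 400, 403, 500, 501, 503, 600, 603, 700, 701,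
    800, 803]
  else [0, 100, 101, 103, 200, 203, 300, 301, 303, 400, 500, 600, 601, 603, 700, 701, 800, 803]

/-- Rows with a wall above them. -/
def isWall (r : ℕ) : Bool := [4, 13, 22, 30, 39, 47].contains (r % 52)

def sgS (c : ℕ) : Bool := !([3, 4, 7, 8].contains (c % 12))

def rhS (r : ℕ) : Bool := !(isWall r)

/-- Flip of a gadget with table `G`, with first row `a` (local row of the group), at the column `d`
of the gadget and the local row `e` of the group. -/
def gadFl (G : List ℕ) (a : ℕ) (d e : ℕ) : Bool :=
  Nat.ble a e && Nat.blt e (a + 4) && G.contains (100 * d + (e - a))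

/-- Column `d` of a block belongs to a gadget. -/
def inGad (d : ℕ) : Bool := Nat.ble 2 d && Nat.ble d 10

def Sys.flS (I : Sys) (c r : ℕ) : Bool :=
  inGad (c % 12) &&
  ((c / 12 == I.N + I.lv (r / 52) 0 && gadFl (gadC (I.ls (r / 52) 0)) 3 (c % 12 - 2) (r % 52)) ||
  (c / 12 == I.lv (r / 52) 1 && gadFl (gadC (I.ls (r / 52) 1)) 12 (10 - c % 12) (r % 52)) ||
  (c / 12 == I.N + I.lv (r / 52) 2 && gadFl (gadB (I.ls (r / 52) 2)) 29 (c % 12 - 2) (r % 52)))

def Sys.pat (I : Sys) : Pat := mkPat sgS rhS I.flS

def Sys.width (I : Sys) : ℕ := 24 * I.N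

def Sys.height (I : Sys) : ℕ := 52 * I.M + 1

end Pool.Agent.Helper69.MF
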