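import Pool.Agent.Helper69.MF.Core

/-!
Map folding: merging of segmented orders.

A segmented order on a region is a folding of the region together with a monotone map `seg` to the
segment numbers, and a list `D` of triples (page, segment, segment) which contains the segments of
the two squares of every crease that connects different segments. Two segmented orders on disjoint
regions are merged along token numbers: the segment `k` of the first one gets the token `t1 k`, the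
segment `j` of the second one the token `t2 j`. Creases of the two parts do not cross as soon as the
entries of the two lists `D` do not cross.
-/

set_option autoImplicit false

namespace Pool.Agent.Helper69.MF

/-- Page number of a crease. -/
def Cr.pg (x : Cr) : ℕ := (if x.k then 2 + x.r % 2 else x.c % 2)

theorem Cr.pg_eq {x y : Cr} : x.pg = y.pg ↔ x.page = y.page := by
  obtain ⟨k, c, r⟩ := x
  obtain ⟨k', c', r'⟩ := y
  cases k <;> cases k' <;> simp [Cr.pg, Cr.page] <;> omega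

structure SegOrd (A : Pat) (R : Set Sq) (pos seg : Sq → ℕ) (K : ℕ) (D : List (ℕ × ℕ × ℕ)) :
    Prop where
  fold : Fold A R pos
  mono : ∀ a ∈ R, ∀ b ∈ R, seg a < seg b → pos a < pos b
  lt : ∀ a ∈ R, seg a < K
  dd : ∀ x : Cr, x.In R → seg (A.lo x) ≠ seg (A.hi x) →
    (x.pg, seg (A.lo x), seg (A.hi x)) ∈ D
  bd : ∃ B, ∀ a ∈ R, pos a < B

/-- The merged position. -/
noncomputable def mpos (R1 : Set Sq) (pos1 seg1 pos2 seg2 : Sq → ℕ) (t1 t2 : ℕ → ℕ) (B : ℕ)
    (a : Sq) : ℕ :=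
  open scoped Classical in
  if a ∈ R1 then t1 (seg1 a) * B + pos1 a else t2 (seg2 a) * B + pos2 a

/-- The merged segment number. -/
noncomputable def mseg (R1 : Set Sq) (seg1 seg2 : Sq → ℕ) (t1 t2 s : ℕ → ℕ) (a : Sq) : ℕ :=
  open scoped Classical in
  if a ∈ R1 then s (t1 (seg1 a)) else s (t2 (seg2 a))

/-- Comparison data of a merged order. -/
structure Merged (R1 R2 : Set Sq) (pos1 seg1 pos2 seg2 : Sq → ℕ) (t1 t2 : ℕ → ℕ)
    (P : Sq → ℕ) : Prop where
  c11 : ∀ a ∈ R1, ∀ b ∈ R1, (P a < P b ↔ pos1 a < pos1 b)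
  c22 : ∀ a ∈ R2, ∀ b ∈ R2, (P a < P b ↔ pos2 a < pos2 b)
  c12 : ∀ a ∈ R1, ∀ b ∈ R2, (P a < P b ↔ t1 (seg1 a) < t2 (seg2 b))
  c21 : ∀ a ∈ R1, ∀ b ∈ R2, (P b < P a ↔ t2 (seg2 b) < t1 (seg1 a))
  bd : ∃ B, ∀ a ∈ R1 ∪ R2, P a < B

theorem cmp_aux {t u B p q : ℕ} (h : t < u) (hp : p < B) : t * B + p < u * B + q := by
  have : (t + 1) * B ≤ u * B := Nat.mul_le_mul_right B h
  have e : (t + 1) * B = t * B + B := by ring
  omega

theorem merged_exists {A : Pat} {R1 R2 : Set Sq} {pos1 seg1 pos2 seg2 : Sq → ℕ} {K1 K2 : ℕ}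
    {D1 D2 : List (ℕ × ℕ × ℕ)} (h1 : SegOrd A R1 pos1 seg1 K1 D1)
    (h2 : SegOrd A R2 pos2 seg2 K2 D2) (hdis : ∀ a ∈ R1, a ∉ R2) (t1 t2 : ℕ → ℕ)
    (m1 : ∀ k l, k < l → l < K1 → t1 k < t1 l) (m2 : ∀ k l, k < l → l < K2 → t2 k < t2 l)
    (hne : ∀ k < K1, ∀ j < K2, t1 k ≠ t2 j) :
    ∃ P : Sq → ℕ, Merged R1 R2 pos1 seg1 pos2 seg2 t1 t2 P := by
  classical
  obtain ⟨B1, hB1⟩ := h1.bd
  obtain ⟨B2, hB2⟩ := h2.bd
  have hm1 : ∀ k l, k ≤ l → l < K1 → t1 k ≤ t1 l := by
    intro k l hkl hl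
    rcases Nat.eq_or_lt_of_le hkl with rfl | h
    · exact le_refl _
    · exact (m1 k l h hl).le
  have hm2 : ∀ k l, k ≤ l → l < K2 → t2 k ≤ t2 l := by
    intro k l hkl hl
    rcases Nat.eq_or_lt_of_le hkl with rfl | h
    · exact le_refl _
    · exact (m2 k l h hl).le
  set B := B1 + B2 with hB
  have b1 : ∀ a ∈ R1, pos1 a < B := fun a ha => by have := hB1 a ha; omega
  have b2 : ∀ a ∈ R2, pos2 a < B := fun a ha => by have := hB2 a ha; omega
  set P := mpos R1 pos1 seg1 pos2 seg2 t1 t2 B with hP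
  have p1 : ∀ a ∈ R1, P a = t1 (seg1 a) * B + pos1 a := by
    intro a ha
    simp only [hP, mpos, if_pos ha]
  have p2 : ∀ a ∈ R2, P a = t2 (seg2 a) * B + pos2 a := by
    intro a ha
    have : a ∉ R1 := fun h => hdis a h ha
    simp only [hP, mpos, if_neg this]
  refine ⟨P, ?_, ?_, ?_, ?_, ?_⟩
  · intro a ha b hb
    rw [p1 a ha, p1 b hb]
    rcases Nat.lt_trichotomy (seg1 a) (seg1 b) with h | h | h
    · have e1 := cmp_aux (B := B) (q := pos1 b) (m1 _ _ h (h1.lt b hb)) (b1 a ha)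
      have e2 := h1.mono a ha b hb h
      exact ⟨fun _ => e2, fun _ => e1⟩
    · rw [h]; omega
    · have e1 := cmp_aux (B := B) (q := pos1 a) (m1 _ _ h (h1.lt a ha)) (b1 b hb)
      have e2 := h1.mono b hb a ha h
      constructor <;> intro h' <;> omega
  · intro a ha b hb
    rw [p2 a ha, p2 b hb]
    rcases Nat.lt_trichotomy (seg2 a) (seg2 b) with h | h | h
    · have e1 := cmp_aux (B := B) (q := pos2 b) (m2 _ _ h (h2.lt b hb)) (b2 a ha)
      have e2 := h2.mono a ha b hb h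
      exact ⟨fun _ => e2, fun _ => e1⟩
    · rw [h]; omega
    · have e1 := cmp_aux (B := B) (q := pos2 a) (m2 _ _ h (h2.lt a ha)) (b2 b hb)
      have e2 := h2.mono b hb a ha h
      constructor <;> intro h' <;> omega
  · intro a ha b hb
    rw [p1 a ha, p2 b hb]
    have hn := hne _ (h1.lt a ha) _ (h2.lt b hb)
    rcases Nat.lt_or_gt_of_ne hn with h | h
    · have e1 := cmp_aux (B := B) (q := pos2 b) h (b1 a ha)
      exact ⟨fun _ => h, fun _ => e1⟩
    · have e1 := cmp_aux (B := B) (q := pos1 a) h (b2 b hb)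
      constructor <;> intro h' <;> omega
  · intro a ha b hb
    rw [p1 a ha, p2 b hb]
    have hn := hne _ (h1.lt a ha) _ (h2.lt b hb)
    rcases Nat.lt_or_gt_of_ne hn with h | h
    · have e1 := cmp_aux (B := B) (q := pos2 b) h (b1 a ha)
      constructor <;> intro h' <;> omega
    · have e1 := cmp_aux (B := B) (q := pos1 a) h (b2 b hb)
      exact ⟨fun _ => h, fun _ => e1⟩
  · refine ⟨(t1 (K1 - 1) + t2 (K2 - 1) + 1) * B, fun a ha => ?_⟩
    rcases ha with ha | ha
    · rw [p1 a ha]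
      have e := hm1 (seg1 a) (K1 - 1) (by have := h1.lt a ha; omega) (by have := h1.lt a ha; omega)
      have e2 := cmp_aux (t := t1 (seg1 a)) (u := t1 (K1 - 1) + t2 (K2 - 1) + 1) (B := B) (q := 0)
        (by omega) (b1 a ha)
      omega
    · rw [p2 a ha]
      have e := hm2 (seg2 a) (K2 - 1) (by have := h2.lt a ha; omega) (by have := h2.lt a ha; omega)
      have e2 := cmp_aux (t := t2 (seg2 a)) (u := t1 (K1 - 1) + t2 (K2 - 1) + 1) (B := B) (q := 0)
        (by omega) (b2 a ha)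
      omega

/-- The two entries do not cross. -/
def NoX (a b c d : ℕ) : Prop := ¬ (a < c ∧ c < b ∧ b < d) ∧ ¬ (c < a ∧ a < d ∧ d < b)

theorem lo_mem {A : Pat} {x : Cr} {R : Set Sq} (h : x.In R) : A.lo x ∈ R := by
  unfold Pat.lo; split_ifs
  · exact h.1
  · exact h.2

theorem hi_mem {A : Pat} {x : Cr} {R : Set Sq} (h : x.In R) : A.hi x ∈ R := by
  unfold Pat.hi; split_ifs
  · exact h.2
  · exact h.1

/-- Merging, with the creases between the two regions treated by hypotheses. -/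
theorem SegOrd.merge {A : Pat} {R1 R2 : Set Sq} {pos1 seg1 pos2 seg2 P : Sq → ℕ} {K1 K2 K : ℕ}
    {D1 D2 D : List (ℕ × ℕ × ℕ)} (h1 : SegOrd A R1 pos1 seg1 K1 D1)
    (h2 : SegOrd A R2 pos2 seg2 K2 D2) (hdis : ∀ a ∈ R1, a ∉ R2) {t1 t2 s : ℕ → ℕ}
    (hne : ∀ k < K1, ∀ j < K2, t1 k ≠ t2 j)
    (m1 : ∀ k l, k < l → l < K1 → t1 k < t1 l) (m2 : ∀ k l, k < l → l < K2 → t2 k < t2 l)
    (hP : Merged R1 R2 pos1 seg1 pos2 seg2 t1 t2 P) (hs : Monotone s)
    (hsK : ∀ k < K1, s (t1 k) < K) (hsK2 : ∀ k < K2, s (t2 k) < K)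
    (hX : ∀ p k l i j, (p, k, l) ∈ D1 → (p, i, j) ∈ D2 → NoX (t1 k) (t1 l) (t2 i) (t2 j))
    (hD1 : ∀ p k l, (p, k, l) ∈ D1 → s (t1 k) ≠ s (t1 l) → (p, s (t1 k), s (t1 l)) ∈ D)
    (hD2 : ∀ p k l, (p, k, l) ∈ D2 → s (t2 k) ≠ s (t2 l) → (p, s (t2 k), s (t2 l)) ∈ D)
    (seamlt : ∀ x : Cr, x.In (R1 ∪ R2) → ¬ x.In R1 → ¬ x.In R2 → P (A.lo x) < P (A.hi x))
    (seamnc : ∀ x y : Cr, x.In (R1 ∪ R2) → ¬ x.In R1 → ¬ x.In R2 → y.In (R1 ∪ R2) →
      x.page = y.page → NoX (P (A.lo x)) (P (A.hi x)) (P (A.lo y)) (P (A.hi y)))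
    (seamD : ∀ x : Cr, x.In (R1 ∪ R2) → ¬ x.In R1 → ¬ x.In R2 →
      mseg R1 seg1 seg2 t1 t2 s (A.lo x) ≠ mseg R1 seg1 seg2 t1 t2 s (A.hi x) →
      (x.pg, mseg R1 seg1 seg2 t1 t2 s (A.lo x), mseg R1 seg1 seg2 t1 t2 s (A.hi x)) ∈ D) :
    SegOrd A (R1 ∪ R2) P (mseg R1 seg1 seg2 t1 t2 s) K D := by
  classical
  have hm1 : ∀ k l, k ≤ l → l < K1 → t1 k ≤ t1 l := by
    intro k l hkl hl
    rcases Nat.eq_or_lt_of_le hkl with rfl | h
    · exact le_refl _
    · exact (m1 k l h hl).le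
  have hm2 : ∀ k l, k ≤ l → l < K2 → t2 k ≤ t2 l := by
    intro k l hkl hl
    rcases Nat.eq_or_lt_of_le hkl with rfl | h
    · exact le_refl _
    · exact (m2 k l h hl).le
  have g1 : ∀ a ∈ R1, mseg R1 seg1 seg2 t1 t2 s a = s (t1 (seg1 a)) := by
    intro a ha; simp only [mseg, if_pos ha]
  have g2 : ∀ a ∈ R2, mseg R1 seg1 seg2 t1 t2 s a = s (t2 (seg2 a)) := by
    intro a ha
    have : a ∉ R1 := fun h => hdis a h ha
    simp only [mseg, if_neg this]
  have slt : ∀ u v, s u < s v → u < v := by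
    intro u v h
    by_contra hc
    exact absurd (hs (Nat.le_of_not_lt hc)) (not_le_of_gt h)
  -- creases of the first part do not cross creases of the second part
  have nc12 : ∀ x y : Cr, x.In R1 → y.In R2 → x.page = y.page →
      NoX (P (A.lo x)) (P (A.hi x)) (P (A.lo y)) (P (A.hi y)) := by
    intro x y hx hy hp
    have ax := lo_mem (A := A) hx
    have bx := hi_mem (A := A) hx
    have ay := lo_mem (A := A) hy
    have byy := hi_mem (A := A) hy
    have dx := h1.fold.dir x hx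
    have dy := h2.fold.dir y hy
    have sx : seg1 (A.lo x) ≤ seg1 (A.hi x) := by
      by_contra hc
      have := h1.mono _ bx _ ax (by omega)
      omega
    have sy : seg2 (A.lo y) ≤ seg2 (A.hi y) := by
      by_contra hc
      have := h2.mono _ byy _ ay (by omega)
      omega
    unfold NoX
    rw [hP.c12 _ ax _ ay, hP.c21 _ bx _ ay, hP.c12 _ bx _ byy, hP.c21 _ ax _ ay,
      hP.c12 _ ax _ byy, hP.c21 _ bx _ byy]
    by_cases ex : seg1 (A.lo x) = seg1 (A.hi x)
    · rw [ex]; constructor <;> intro h <;> omega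
    · by_cases ey : seg2 (A.lo y) = seg2 (A.hi y)
      · rw [ey]; constructor <;> intro h <;> omega
      · have e1 := h1.dd x hx ex
        have e2 := h2.dd y hy ey
        rw [Cr.pg_eq.2 hp] at e1
        exact hX _ _ _ _ _ e1 e2
  refine ⟨⟨?_, ?_, ?_⟩, ?_, ?_, ?_, hP.bd⟩
  · -- injectivity
    intro a ha b hb hab
    rcases ha with ha | ha <;> rcases hb with hb | hb
    · apply h1.fold.inj a ha b hb
      have e1 := hP.c11 a ha b hb
      have e2 := hP.c11 b hb a ha
      rcases Nat.lt_trichotomy (pos1 a) (pos1 b) with h | h | h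
      · have := e1.2 h; omega
      · exact h
      · have := e2.2 h; omega
    · exfalso
      have hn := hne _ (h1.lt a ha) _ (h2.lt b hb)
      rcases Nat.lt_or_gt_of_ne hn with h | h
      · have := (hP.c12 a ha b hb).2 h; omega
      · have := (hP.c21 a ha b hb).2 h; omega
    · exfalso
      have hn := hne _ (h1.lt b hb) _ (h2.lt a ha)
      rcases Nat.lt_or_gt_of_ne hn with h | h
      · have := (hP.c12 b hb a ha).2 h; omega
      · have := (hP.c21 b hb a ha).2 h; omega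
    · apply h2.fold.inj a ha b hb
      have e1 := hP.c22 a ha b hb
      have e2 := hP.c22 b hb a ha
      rcases Nat.lt_trichotomy (pos2 a) (pos2 b) with h | h | h
      · have := e1.2 h; omega
      · exact h
      · have := e2.2 h; omega
  · intro x hx
    by_cases c1 : x.In R1
    · exact (hP.c11 _ (lo_mem c1) _ (hi_mem c1)).2 (h1.fold.dir x c1)
    · by_cases c2 : x.In R2
      · exact (hP.c22 _ (lo_mem c2) _ (hi_mem c2)).2 (h2.fold.dir x c2)
      · exact seamlt x hx c1 c2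
  · intro x y hx hy hp
    by_cases c1 : x.In R1
    · by_cases d1 : y.In R1
      · have := h1.fold.nc x y c1 d1 hp
        rw [hP.c11 _ (lo_mem c1) _ (lo_mem d1), hP.c11 _ (lo_mem d1) _ (hi_mem c1),
          hP.c11 _ (hi_mem c1) _ (hi_mem d1)]
        exact this
      · by_cases d2 : y.In R2
        · exact (nc12 x y c1 d2 hp).1
        · exact (seamnc y x hy d1 d2 hx hp.symm).2
    · by_cases c2 : x.In R2
      · by_cases d1 : y.In R1
        · exact (nc12 y x d1 c2 hp.symm).2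
        · by_cases d2 : y.In R2
          · have := h2.fold.nc x y c2 d2 hp
            rw [hP.c22 _ (lo_mem c2) _ (lo_mem d2), hP.c22 _ (lo_mem d2) _ (hi_mem c2),
              hP.c22 _ (hi_mem c2) _ (hi_mem d2)]
            exact this
          · exact (seamnc y x hy d1 d2 hx hp.symm).2
      · exact (seamnc x y hx c1 c2 hy hp).1
  · intro a ha b hb hab
    rcases ha with ha | ha <;> rcases hb with hb | hb
    · rw [g1 a ha, g1 b hb] at hab
      have h := slt _ _ hab
      apply (hP.c11 a ha b hb).2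
      apply h1.mono a ha b hb
      by_contra hc
      have := hm1 _ _ (Nat.le_of_not_lt hc) (h1.lt a ha)
      omega
    · rw [g1 a ha, g2 b hb] at hab
      exact (hP.c12 a ha b hb).2 (slt _ _ hab)
    · rw [g2 a ha, g1 b hb] at hab
      exact (hP.c21 b hb a ha).2 (slt _ _ hab)
    · rw [g2 a ha, g2 b hb] at hab
      have h := slt _ _ hab
      apply (hP.c22 a ha b hb).2
      apply h2.mono a ha b hb
      by_contra hc
      have := hm2 _ _ (Nat.le_of_not_lt hc) (h2.lt a ha)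
      omega
  · intro a ha
    rcases ha with ha | ha
    · rw [g1 a ha]; exact hsK _ (h1.lt a ha)
    · rw [g2 a ha]; exact hsK2 _ (h2.lt a ha)
  · intro x hx hsg
    by_cases c1 : x.In R1
    · rw [g1 _ (lo_mem c1), g1 _ (hi_mem c1)] at hsg ⊢
      have hne' : seg1 (A.lo x) ≠ seg1 (A.hi x) := fun h => hsg (by rw [h])
      exact hD1 _ _ _ (h1.dd x c1 hne') hsg
    · by_cases c2 : x.In R2
      · rw [g2 _ (lo_mem c2), g2 _ (hi_mem c2)] at hsg ⊢
        have hne' : seg2 (A.lo x) ≠ seg2 (A.hi x) := fun h => hsg (by rw [h])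
        exact hD2 _ _ _ (h2.dd x c2 hne') hsg
      · exact seamD x hx c1 c2 hsg

end Pool.Agent.Helper69.MF
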