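import Pool.Agent.Helper69.MF.Core

/-!
Map folding: checker for window certificates.

A window is a `w × h` rectangle of squares at offset `(c0, r0)`; the local square `(c, r)` has the
code `100 * c + r`. A certificate is a list of steps; every step derives one comparison between two
squares from earlier ones: `tr` by transitivity, `nc` by the parity form of noncrossing. The
certificate ends with two contradicting comparisons.
-/

set_option autoImplicit false

namespace Pool.Agent.Helper69.MF

namespace UP

def sq (c0 r0 a : ℕ) : Sq := (c0 + a / 100, r0 + a % 100)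

inductive Stp where
  /-- transitivity of facts number `i` and `j` -/
  | tr (i j : ℕ)
  /-- noncrossing of the creases `(k, x)` and `(k, y)`; the comparison number `q` is derived from
  the facts number `i`, `j`, `l` -/
  | nc (k : Bool) (x y q i j l : ℕ)

/-- Second square of the crease `(k, x)`. -/
def snd (k : Bool) (x : ℕ) : ℕ := if k then x + 1 else x + 100

def okCr (w h : ℕ) (k : Bool) (x : ℕ) : Bool :=
  if k then Nat.blt (x / 100) w && Nat.blt (x % 100 + 1) h
  else Nat.blt (x / 100 + 1) w && Nat.blt (x % 100) h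

def par (k : Bool) (x : ℕ) : ℕ := if k then x % 100 % 2 else x / 100 % 2

/-- Truth value of `a < b` according to fact number `i`. -/
def tv (F : List (ℕ × ℕ)) (i a b : ℕ) : Option Bool :=
  match F[i]? with
  | some (s, t) => if (s == a && t == b) then some true else
      if (s == b && t == a) then some false else none
  | none => none

/-- The comparison number `q` between the squares of two creases. -/
def lit (k : Bool) (x y q : ℕ) : ℕ × ℕ :=
  match q with
  | 0 => (x, y)
  | 1 => (snd k x, y)
  | 2 => (x, snd k y)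
  | _ => (snd k x, snd k y)

def oth (q : ℕ) : ℕ × ℕ × ℕ :=
  match q with
  | 0 => (1, 2, 3)
  | 1 => (0, 2, 3)
  | 2 => (0, 1, 3)
  | _ => (0, 1, 2)

def step (w h : ℕ) (F : List (ℕ × ℕ)) : Stp → Option (ℕ × ℕ)
  | .tr i j =>
    match F[i]?, F[j]? with
    | some (a, b), some (b', c) => if b == b' then some (a, c) else none
    | _, _ => none
  | .nc k x y q i j l =>
    if okCr w h k x && okCr w h k y && (par k x == par k y) && !(x == y) then
      let o := oth q
      let p1 := lit k x y o.1
      let p2 := lit k x y o.2.1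
      let p3 := lit k x y o.2.2
      match tv F i p1.1 p1.2, tv F j p2.1 p2.2, tv F l p3.1 p3.2 with
      | some v1, some v2, some v3 =>
        let p := lit k x y q
        if xor v1 (xor v2 v3) then some p else some (p.2, p.1)
      | _, _, _ => none
    else none

def run (w h : ℕ) : List Stp → List (ℕ × ℕ) → Option (List (ℕ × ℕ))
  | [], F => some F
  | s :: l, F => match step w h F s with
    | some f => run w h l (f :: F)
    | none => none

/-- The final contradiction: fact `i` is the reverse of fact `j`. -/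
def chk (w h : ℕ) (F : List (ℕ × ℕ)) (st : List Stp) (i j : ℕ) : Bool :=
  match run w h st F with
  | some G => match G[i]?, G[j]? with
    | some (a, b), some (c, d) => a == d && b == c
    | _, _ => false
  | none => false

def Holds (pos : Sq → ℕ) (c0 r0 : ℕ) (f : ℕ × ℕ) : Prop :=
  pos (sq c0 r0 f.1) < pos (sq c0 r0 f.2)

def cr (c0 r0 : ℕ) (k : Bool) (x : ℕ) : Cr := ⟨k, c0 + x / 100, r0 + x % 100⟩

theorem cr_fst (c0 r0 : ℕ) (k : Bool) (x : ℕ) : (cr c0 r0 k x).fst = sq c0 r0 x := rfl

theorem cr_snd {w h : ℕ} (c0 r0 : ℕ) (k : Bool) (x : ℕ) (hh : h ≤ 100) (hx : okCr w h k x = true) :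
    (cr c0 r0 k x).snd = sq c0 r0 (snd k x) := by
  cases k
  · simp only [cr, Cr.snd, snd, sq, Bool.false_eq_true, if_false, Prod.mk.injEq]
    refine ⟨?_, ?_⟩ <;> omega
  · simp only [okCr, if_true, Bool.and_eq_true, Nat.blt_eq] at hx
    simp only [cr, Cr.snd, snd, sq, if_true, Prod.mk.injEq]
    refine ⟨?_, ?_⟩ <;> omega

section

variable {A : Pat} {R : Set Sq} {pos : Sq → ℕ} {c0 r0 w h : ℕ}

theorem cr_in (hh : h ≤ 100) (hR : ∀ c r, c < w → r < h → (c0 + c, r0 + r) ∈ R) (k : Bool) (x : ℕ)
    (hx : okCr w h k x = true) : (cr c0 r0 k x).In R := by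
  refine ⟨?_, ?_⟩
  · rw [cr_fst]
    cases k
    · simp only [okCr, Bool.false_eq_true, if_false, Bool.and_eq_true, Nat.blt_eq] at hx
      exact hR _ _ (by omega) (by omega)
    · simp only [okCr, if_true, Bool.and_eq_true, Nat.blt_eq] at hx
      exact hR _ _ (by omega) (by omega)
  · rw [cr_snd c0 r0 k x hh hx]
    cases k
    · simp only [okCr, Bool.false_eq_true, if_false, Bool.and_eq_true, Nat.blt_eq] at hx
      exact hR _ _ (by simp only [snd, Bool.false_eq_true, if_false]; omega)
        (by simp only [snd, Bool.false_eq_true, if_false]; omega)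
    · simp only [okCr, if_true, Bool.and_eq_true, Nat.blt_eq] at hx
      exact hR _ _ (by simp only [snd, if_true]; omega) (by simp only [snd, if_true]; omega)

theorem par_page (k : Bool) (x y : ℕ) (hp : par k x = par k y) :
    (cr c0 r0 k x).page = (cr c0 r0 k y).page := by
  cases k
  · simp only [par, Bool.false_eq_true, if_false] at hp
    simp only [cr, Cr.page, Bool.false_eq_true, if_false, Prod.mk.injEq, true_and]
    omega
  · simp only [par, if_true] at hp
    simp only [cr, Cr.page, if_true, Prod.mk.injEq, true_and]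
    omega

theorem cr_ne (k : Bool) (x y : ℕ) (hne : x ≠ y) : cr c0 r0 k x ≠ cr c0 r0 k y := by
  intro h
  simp only [cr, Cr.mk.injEq, true_and] at h
  apply hne
  omega

theorem tv_spec (F : List (ℕ × ℕ)) (hF : ∀ f ∈ F, Holds pos c0 r0 f) (i a b : ℕ) (v : Bool)
    (hv : tv F i a b = some v) : decide (pos (sq c0 r0 a) < pos (sq c0 r0 b)) = v := by
  unfold tv at hv
  cases hi : F[i]? with
  | none => rw [hi] at hv; simp at hv
  | some f =>
    rw [hi] at hv
    obtain ⟨s, t⟩ := f
    have hm := hF _ (List.mem_of_getElem? hi)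
    simp only [Holds] at hm
    simp only [Bool.and_eq_true, beq_iff_eq] at hv
    split_ifs at hv with h1 h2
    · obtain ⟨rfl, rfl⟩ := h1
      simp only [Option.some.injEq] at hv
      rw [← hv]
      simpa using hm
    · obtain ⟨rfl, rfl⟩ := h2
      simp only [Option.some.injEq] at hv
      rw [← hv]
      simp only [decide_eq_false_iff_not, not_lt]
      omega

theorem step_spec (hf : Fold A R pos) (hh : h ≤ 100)
    (hR : ∀ c r, c < w → r < h → (c0 + c, r0 + r) ∈ R)
    (F : List (ℕ × ℕ)) (hF : ∀ f ∈ F, Holds pos c0 r0 f) (s : Stp) (f : ℕ × ℕ)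
    (hs : step w h F s = some f) : Holds pos c0 r0 f := by
  cases s with
  | tr i j =>
    simp only [step] at hs
    cases hi : F[i]? with
    | none => rw [hi] at hs; simp at hs
    | some f1 =>
      cases hj : F[j]? with
      | none => rw [hi, hj] at hs; simp at hs
      | some f2 =>
        rw [hi, hj] at hs
        obtain ⟨a, b⟩ := f1
        obtain ⟨b', c⟩ := f2
        simp only [beq_iff_eq] at hs
        split_ifs at hs with hb
        simp only [Option.some.injEq] at hs
        subst hb
        rw [← hs]
        have e1 := hF _ (List.mem_of_getElem? hi)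
        have e2 := hF _ (List.mem_of_getElem? hj)
        unfold Holds at e1 e2 ⊢
        exact lt_trans e1 e2
  | nc k x y q i j l =>
    simp only [step] at hs
    split_ifs at hs with hc
    simp only [Bool.and_eq_true, beq_iff_eq, Bool.not_eq_true', beq_eq_false_iff_ne] at hc
    obtain ⟨⟨⟨hx, hy⟩, hp⟩, hne⟩ := hc
    have ev := hf.even (cr_in hh hR k x hx) (cr_in hh hR k y hy) (par_page k x y hp)
      (cr_ne k x y hne)
    rw [cr_fst, cr_fst, cr_snd c0 r0 k x hh hx, cr_snd c0 r0 k y hh hy] at ev
    have hinj : ∀ a b : Sq, a ∈ R → b ∈ R → a ≠ b → ¬ pos a < pos b → pos b < pos a := by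
      intro a b ha hb hab hn
      rcases Nat.lt_trichotomy (pos a) (pos b) with h1 | h1 | h1
      · exact absurd h1 hn
      · exact absurd (hf.inj a ha b hb h1) hab
      · exact h1
    have mx := cr_in hh hR k x hx
    have my := cr_in hh hR k y hy
    have dj := Cr.disj (par_page (c0 := c0) (r0 := r0) k x y hp) (cr_ne k x y hne)
    unfold Cr.In at mx my
    rw [cr_fst, cr_snd c0 r0 k x hh hx] at mx
    rw [cr_fst, cr_snd c0 r0 k y hh hy] at my
    rw [cr_fst, cr_fst, cr_snd c0 r0 k x hh hx, cr_snd c0 r0 k y hh hy] at dj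
    obtain ⟨dj1, dj2, dj3, dj4⟩ := dj
    rcases h1 : tv F i (lit k x y (oth q).1).1 (lit k x y (oth q).1).2 with _ | v1
    · rw [h1] at hs; simp at hs
    rcases h2 : tv F j (lit k x y (oth q).2.1).1 (lit k x y (oth q).2.1).2 with _ | v2
    · rw [h1, h2] at hs; simp at hs
    rcases h3 : tv F l (lit k x y (oth q).2.2).1 (lit k x y (oth q).2.2).2 with _ | v3
    · rw [h1, h2, h3] at hs; simp at hs
    rw [h1, h2, h3] at hs
    have t1 := tv_spec F hF _ _ _ _ h1
    have t2 := tv_spec F hF _ _ _ _ h2
    have t3 := tv_spec F hF _ _ _ _ h3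
    simp only at hs
    have fin : ∀ a b : ℕ, sq c0 r0 a ∈ R → sq c0 r0 b ∈ R → sq c0 r0 a ≠ sq c0 r0 b →
        decide (pos (sq c0 r0 a) < pos (sq c0 r0 b)) = xor v1 (xor v2 v3) →
        (if xor v1 (xor v2 v3) = true then some (a, b) else some (b, a)) = some f →
        Holds pos c0 r0 f := by
      intro a b ha hb hab hd hf'
      split_ifs at hf' with hv
      · simp only [Option.some.injEq] at hf'
        rw [← hf']
        rw [hv] at hd
        simpa [Holds] using hd
      · simp only [Option.some.injEq] at hf'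
        rw [← hf']
        simp only [Bool.not_eq_true] at hv
        rw [hv] at hd
        simp only [decide_eq_false_iff_not] at hd
        exact hinj _ _ ha hb hab hd
    match q, h1, h2, h3, t1, t2, t3, hs with
    | 0, _, _, _, t1, t2, t3, hs =>
      simp only [lit, oth] at t1 t2 t3 hs
      refine fin _ _ mx.1 my.1 dj1 ?_ hs
      rw [t1, t2, t3] at ev
      revert ev
      generalize decide (pos (sq c0 r0 x) < pos (sq c0 r0 y)) = u
      cases u <;> cases v1 <;> cases v2 <;> cases v3 <;> decide
    | 1, _, _, _, t1, t2, t3, hs =>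
      simp only [lit, oth] at t1 t2 t3 hs
      refine fin _ _ mx.2 my.1 dj3 ?_ hs
      rw [t1, t2, t3] at ev
      revert ev
      generalize decide (pos (sq c0 r0 (snd k x)) < pos (sq c0 r0 y)) = u
      cases u <;> cases v1 <;> cases v2 <;> cases v3 <;> decide
    | 2, _, _, _, t1, t2, t3, hs =>
      simp only [lit, oth] at t1 t2 t3 hs
      refine fin _ _ mx.1 my.2 dj2 ?_ hs
      rw [t1, t2, t3] at ev
      revert ev
      generalize decide (pos (sq c0 r0 x) < pos (sq c0 r0 (snd k y))) = u
      cases u <;> cases v1 <;> cases v2 <;> cases v3 <;> decide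
    | (q + 3), _, _, _, t1, t2, t3, hs =>
      simp only [lit, oth] at t1 t2 t3 hs
      refine fin _ _ mx.2 my.2 dj4 ?_ hs
      rw [t1, t2, t3] at ev
      revert ev
      generalize decide (pos (sq c0 r0 (snd k x)) < pos (sq c0 r0 (snd k y))) = u
      cases u <;> cases v1 <;> cases v2 <;> cases v3 <;> decide

theorem run_spec (hf : Fold A R pos) (hh : h ≤ 100)
    (hR : ∀ c r, c < w → r < h → (c0 + c, r0 + r) ∈ R) (st : List Stp) :
    ∀ (F G : List (ℕ × ℕ)), (∀ f ∈ F, Holds pos c0 r0 f) → run w h st F = some G →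
      ∀ f ∈ G, Holds pos c0 r0 f := by
  induction st with
  | nil =>
    intro F G hF hr
    simp only [run, Option.some.injEq] at hr
    rw [← hr]; exact hF
  | cons s l ih =>
    intro F G hF hr
    simp only [run] at hr
    cases hs : step w h F s with
    | none => rw [hs] at hr; simp at hr
    | some f =>
      rw [hs] at hr
      refine ih (f :: F) G ?_ hr
      intro g hg
      rcases List.mem_cons.1 hg with rfl | hg
      · exact step_spec hf hh hR F hF s _ hs
      · exact hF g hg

theorem refute0 (hf : Fold A R pos) (hh : h ≤ 100)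
    (hR : ∀ c r, c < w → r < h → (c0 + c, r0 + r) ∈ R) (F : List (ℕ × ℕ))
    (hF : ∀ f ∈ F, Holds pos c0 r0 f) (st : List Stp) (i j : ℕ) (hc : chk w h F st i j = true) :
    False := by
  unfold chk at hc
  cases hr : run w h st F with
  | none => rw [hr] at hc; simp at hc
  | some G =>
    rw [hr] at hc
    simp only at hc
    have hG := run_spec hf hh hR st F G hF hr
    cases hi : G[i]? with
    | none => rw [hi] at hc; simp at hc
    | some f1 =>
      cases hj : G[j]? with
      | none => rw [hi, hj] at hc; simp at hc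
      | some f2 =>
        rw [hi, hj] at hc
        obtain ⟨a, b⟩ := f1
        obtain ⟨c, d⟩ := f2
        simp only [Bool.and_eq_true, beq_iff_eq] at hc
        obtain ⟨rfl, rfl⟩ := hc
        have e1 := hG _ (List.mem_of_getElem? hi)
        have e2 := hG _ (List.mem_of_getElem? hj)
        unfold Holds at e1 e2
        exact absurd e1 (not_lt_of_gt e2)

/-- The crease `(k, x)` as a fact, according to the local pattern `B`. -/
def dirF (B : Pat) (k : Bool) (x : ℕ) : ℕ × ℕ :=
  if (if k then B.V (x / 100) (x % 100) else B.H (x / 100) (x % 100)) then (x, snd k x)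
  else (snd k x, x)

/-- Facts given by a list of creases. -/
def dirs (B : Pat) (l : List (Bool × ℕ)) : List (ℕ × ℕ) := l.map (fun p => dirF B p.1 p.2)

theorem dirF_spec (hf : Fold A R pos) (hh : h ≤ 100)
    (hR : ∀ c r, c < w → r < h → (c0 + c, r0 + r) ∈ R) (B : Pat)
    (hH : ∀ c r, c + 1 < w → r < h → A.H (c0 + c) (r0 + r) = B.H c r)
    (hV : ∀ c r, c < w → r + 1 < h → A.V (c0 + c) (r0 + r) = B.V c r) (k : Bool) (x : ℕ)
    (hx : okCr w h k x = true) : Holds pos c0 r0 (dirF B k x) := by
  have hd := hf.dir _ (cr_in hh hR k x hx)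
  unfold Pat.lo Pat.hi at hd
  rw [cr_fst, cr_snd c0 r0 k x hh hx] at hd
  have hdir : A.dir (cr c0 r0 k x) =
      (if k then B.V (x / 100) (x % 100) else B.H (x / 100) (x % 100)) := by
    cases k
    · simp only [okCr, Bool.false_eq_true, if_false, Bool.and_eq_true, Nat.blt_eq] at hx
      simp only [Pat.dir, cr, Bool.false_eq_true, if_false]
      exact hH _ _ hx.1 hx.2
    · simp only [okCr, if_true, Bool.and_eq_true, Nat.blt_eq] at hx
      simp only [Pat.dir, cr, if_true]
      exact hV _ _ hx.1 hx.2
  rw [hdir] at hd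
  unfold dirF Holds
  split_ifs at hd ⊢ <;> exact hd

/-- Refutation of a window: the creases used are given by the list `l`, the assumptions by `asm`. -/
theorem refute (hf : Fold A R pos) (hh : h ≤ 100)
    (hR : ∀ c r, c < w → r < h → (c0 + c, r0 + r) ∈ R) (B : Pat)
    (hH : ∀ c r, c + 1 < w → r < h → A.H (c0 + c) (r0 + r) = B.H c r)
    (hV : ∀ c r, c < w → r + 1 < h → A.V (c0 + c) (r0 + r) = B.V c r)
    (l : List (Bool × ℕ)) (asm : List (ℕ × ℕ)) (hasm : ∀ f ∈ asm, Holds pos c0 r0 f)
    (st : List Stp) (i j : ℕ)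
    (hc : (l.all (fun p => okCr w h p.1 p.2) && chk w h (asm ++ dirs B l) st i j) = true) :
    False := by
  rw [Bool.and_eq_true, List.all_eq_true] at hc
  refine refute0 hf hh hR (asm ++ dirs B l) ?_ st i j hc.2
  intro f hf'
  rcases List.mem_append.1 hf' with h1 | h1
  · exact hasm f h1
  · obtain ⟨p, hp, rfl⟩ := List.mem_map.1 h1
    exact dirF_spec hf hh hR B hH hV p.1 p.2 (hc.1 p hp)

end

end UP

end Pool.Agent.Helper69.MF
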