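import Pool.Agent.Helper69.MF.UP

/-!
Map folding: window certificates for patterns given by a column pattern, a row pattern and a set of
flipped squares.
-/

set_option autoImplicit false

namespace Pool.Agent.Helper69.MF

namespace UP

/-- Local pattern: bit masks for the column and row patterns, a list of codes for the flipped
squares, the parity of the first row. -/
def locPat (S T : ℕ) (L : List ℕ) (p : ℕ) : Pat where
  H c r := xor (xor (Nat.testBit S c) ((r + p) % 2 == 1))
    (xor (L.contains (100 * c + r)) (L.contains (100 * (c + 1) + r)))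
  V c r := xor (Nat.testBit T r) (xor (L.contains (100 * c + r)) (L.contains (100 * c + (r + 1))))

/-- The whole check of a window certificate. -/
def chkG (w h S T : ℕ) (L : List ℕ) (p : ℕ) (l : List (Bool × ℕ)) (asm : List (ℕ × ℕ))
    (st : List Stp) (i j : ℕ) : Bool :=
  Nat.ble h 100 && (l.all (fun q => okCr w h q.1 q.2) &&
    chk w h (asm ++ dirs (locPat S T L p) l) st i j)

theorem refuteG {sg rh : ℕ → Bool} {fl : ℕ → ℕ → Bool} {R : Set Sq} {pos : Sq → ℕ}
    (hf : Fold (mkPat sg rh fl) R pos) (c0 r0 w h S T : ℕ) (L : List ℕ) (p : ℕ)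
    (hR : ∀ c r, c < w → r < h → (c0 + c, r0 + r) ∈ R)
    (hS : ∀ c, c + 1 < w → sg (c0 + c) = Nat.testBit S c)
    (hT : ∀ r, r + 1 < h → rh (r0 + r) = Nat.testBit T r)
    (hL : ∀ c r, c < w → r < h → fl (c0 + c) (r0 + r) = L.contains (100 * c + r))
    (hp : r0 % 2 = p)
    (l : List (Bool × ℕ)) (asm : List (ℕ × ℕ)) (st : List Stp) (i j : ℕ)
    (hc : chkG w h S T L p l asm st i j = true)
    (hasm : ∀ f ∈ asm, Holds pos c0 r0 f) : False := by
  unfold chkG at hc
  rw [Bool.and_eq_true, Nat.ble_eq] at hc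
  refine refute hf hc.1 hR (locPat S T L p) ?_ ?_ l asm hasm st i j hc.2
  · intro c r h1 h2
    have e : (r0 + r) % 2 = (r + p) % 2 := by omega
    simp only [mkPat, locPat]
    rw [hS c h1, hL c r (by omega) h2, show c0 + c + 1 = c0 + (c + 1) by ring,
      hL (c + 1) r h1 h2, e]
  · intro c r h1 h2
    simp only [mkPat, locPat]
    rw [hT r h2, hL c r h1 (by omega), show r0 + r + 1 = r0 + (r + 1) by ring,
      hL c (r + 1) h1 h2]

end UP

end Pool.Agent.Helper69.MF
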